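import Pool.Agent.Helper272_RF.B

set_option autoImplicit false

/-!
# Bodies with `d` independent belt directions: the corners of the circumscribed parallelotope
-/

open Finset

namespace Pool.Agent.Helper272_UH

open Pool.Agent.PZ871 (E)
open Pool.Agent.TH84.HC (CoveredBy sep_ray extreme_dom cover_of_illum)
open Pool.Agent.Helper272_RF (Belt Body)

/-- the sign -/
def sg (s : Bool) : ℝ := if s then 1 else -1

theorem sg_not (s : Bool) : sg (!s) = - sg s := by cases s <;> simp [sg]

theorem sg_sq (s : Bool) : sg s * sg s = 1 := by cases s <;> simp [sg]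

theorem sg_abs {s : Bool} {y : ℝ} (h : 0 ≤ sg s * y) : sg s * y = |y| := by
  cases s
  · simp only [sg] at h ⊢
    simp only [Bool.false_eq_true, if_false] at h ⊢
    rw [abs_of_nonpos (by linarith)]
    ring
  · simp only [sg] at h ⊢
    simp only [if_true] at h ⊢
    rw [abs_of_nonneg (by linarith)]
    ring

variable {d : ℕ}

/-- some point of `K` has the extreme coordinates with the signs `s i`, `i ∈ S` -/
def Corner (b : Module.Basis (Fin d) ℝ (E d)) (K : Set (E d)) (S : Finset (Fin d))
    (s : Fin d → Bool) : Prop :=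
  ∃ x ∈ K, ∀ i ∈ S, ∀ y ∈ K, sg (s i) * b.coord i y ≤ sg (s i) * b.coord i x

/-- the sign vectors with the pattern `(S, s)` -/
def cube (S : Finset (Fin d)) (s : Fin d → Bool) : Finset (Fin d → Bool) :=
  univ.filter fun σ => ∀ i ∈ S, σ i = s i

theorem mem_cube {S : Finset (Fin d)} {s σ : Fin d → Bool} : σ ∈ cube S s ↔ ∀ i ∈ S, σ i = s i := by
  simp [cube]

theorem card_cube (S : Finset (Fin d)) (s : Fin d → Bool) : (cube S s).card = 2 ^ (d - S.card) := by
  classical
  have h1 : cube S s = Fintype.piFinset fun i => if i ∈ S then {s i} else univ := by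
    ext σ
    rw [mem_cube, Fintype.mem_piFinset]
    apply forall_congr'
    intro i
    by_cases h : i ∈ S <;> simp [h]
  rw [h1, Fintype.card_piFinset]
  have h2 : ∀ i, ((if i ∈ S then {s i} else univ : Finset Bool)).card = if i ∈ S then 1 else 2 := by
    intro i
    by_cases h : i ∈ S <;> simp [h]
  simp only [h2]
  rw [prod_ite, prod_const_one, one_mul, prod_const]
  congr 1
  rw [← compl_filter]
  have h3 : (univ.filter fun i => i ∈ S) = S := by ext; simp
  rw [h3, card_compl, Fintype.card_fin]

/-- the sign vector with the sign `i` changed -/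
def flip (σ : Fin d → Bool) (i : Fin d) : Fin d → Bool := Function.update σ i (!σ i)

theorem flip_self (σ : Fin d → Bool) (i : Fin d) : flip σ i i = !σ i := by simp [flip]

theorem flip_ne (σ : Fin d → Bool) {i j : Fin d} (h : j ≠ i) : flip σ i j = σ j := by
  simp [flip, h]

theorem flip_flip (σ : Fin d → Bool) (i : Fin d) : flip (flip σ i) i = σ := by
  funext j
  by_cases h : j = i
  · subst h; simp [flip]
  · rw [flip_ne _ h, flip_ne _ h]

theorem dist_flip_le (σ : Fin d → Bool) (i : Fin d) : hammingDist σ (flip σ i) ≤ 1 := by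
  unfold hammingDist
  calc (univ.filter fun j => σ j ≠ flip σ i j).card ≤ ({i} : Finset (Fin d)).card := by
        apply card_le_card
        intro j hj
        rw [mem_singleton]
        by_contra h
        exact (mem_filter.1 hj).2 (flip_ne σ h).symm
    _ = 1 := card_singleton i

theorem flip_ne_self (σ : Fin d → Bool) (i : Fin d) : flip σ i ≠ σ := by
  intro h
  have := congrFun h i
  rw [flip_self] at this
  cases h2 : σ i <;> rw [h2] at this <;> simp at this

/-- a gap at the patterns which do not occur in `K` -/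
theorem gap (b : Module.Basis (Fin d) ℝ (E d)) {K : Set (E d)} (hc : IsCompact K) (hne : K.Nonempty)
    (S : Finset (Fin d)) (s : Fin d → Bool) (hσ : ¬ Corner b K S s) :
    ∃ η : ℝ, 0 < η ∧ ∀ x ∈ K, ∃ i ∈ S, ∃ y ∈ K, η ≤ sg (s i) * (b.coord i y - b.coord i x) := by
  have hcont : ∀ i, Continuous fun x : E d => b.coord i x := fun i =>
    (b.coord i).continuous_of_finiteDimensional
  have h1 : ∀ i, ∃ y ∈ K, ∀ x ∈ K, sg (s i) * b.coord i x ≤ sg (s i) * b.coord i y := by
    intro i
    obtain ⟨y, hy, hmax⟩ := hc.exists_isMaxOn hne (f := fun x => sg (s i) * b.coord i x)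
      ((hcont i).const_mul _ |>.continuousOn)
    exact ⟨y, hy, fun x hx => hmax hx⟩
  choose y hyK hy using h1
  obtain ⟨x₀, hx₀, hmin⟩ := hc.exists_isMinOn hne
    (f := fun x => ∑ i ∈ S, sg (s i) * (b.coord i (y i) - b.coord i x)) (by
      apply Continuous.continuousOn
      exact continuous_finsetSum _ fun i _ => (continuous_const.sub (hcont i)).const_mul _)
  have hterm : ∀ x ∈ K, ∀ i, 0 ≤ sg (s i) * (b.coord i (y i) - b.coord i x) := by
    intro x hx i
    have := hy i x hx
    linarith
  obtain ⟨i₀, hi₀S, hi₀⟩ : ∃ i ∈ S, 0 < sg (s i) * (b.coord i (y i) - b.coord i x₀) := by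
    by_contra hcon
    push Not at hcon
    apply hσ
    refine ⟨x₀, hx₀, fun i hi z hz => ?_⟩
    have h2 := hcon i hi
    have h3 := hy i z hz
    linarith
  set m : ℝ := ∑ i ∈ S, sg (s i) * (b.coord i (y i) - b.coord i x₀) with hm
  have hs0 : 0 < m := sum_pos' (fun i _ => hterm x₀ hx₀ i) ⟨i₀, hi₀S, hi₀⟩
  have hd : 0 < (S.card : ℝ) := by
    have : 0 < S.card := card_pos.2 ⟨i₀, hi₀S⟩
    exact_mod_cast this
  refine ⟨m / S.card, by positivity, fun x hx => ?_⟩
  by_contra hcon
  push Not at hcon
  have h2 : ∑ i ∈ S, sg (s i) * (b.coord i (y i) - b.coord i x) < ∑ _i ∈ S, m / S.card := by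
    apply sum_lt_sum_of_nonempty ⟨i₀, hi₀S⟩
    intro i hi
    exact hcon i hi (y i) (hyK i)
  rw [sum_const, nsmul_eq_mul, mul_div_cancel₀ _ hd.ne'] at h2
  have h3 : m ≤ ∑ i ∈ S, sg (s i) * (b.coord i (y i) - b.coord i x) := hmin hx
  linarith

/-- patterns with at least three common places with different signs have no common or neighbouring
sign vectors -/
theorem far {S S' : Finset (Fin d)} {s s' σ τ : Fin d → Bool}
    (h : 3 ≤ ((S ∩ S').filter fun i => s i ≠ s' i).card) (hσ : σ ∈ cube S s) (hτ : τ ∈ cube S' s') :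
    3 ≤ hammingDist σ τ := by
  refine h.trans (card_le_card fun i hi => ?_)
  obtain ⟨h1, h2⟩ := mem_filter.1 hi
  obtain ⟨h3, h4⟩ := mem_inter.1 h1
  rw [mem_filter]
  refine ⟨mem_univ _, ?_⟩
  rw [mem_cube.1 hσ i h3, mem_cube.1 hτ i h4]
  exact h2

/-- `2^d - ∑ 2^(d-|S_p|)` directions suffice if the patterns `(S_p, s_p)` do not occur in `K` and any two
of them have at least three common places with different signs -/
theorem upper (b : Module.Basis (Fin d) ℝ (E d)) {K : Set (E d)} (hB : Body K)
    (hb : ∀ i, Belt K (b i)) {ι : Type} [Fintype ι] (S : ι → Finset (Fin d)) (s : ι → Fin d → Bool)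
    (hD : ∀ p, ¬ Corner b K (S p) (s p))
    (hdist : ∀ p q, p ≠ q → 3 ≤ ((S p ∩ S q).filter fun i => s p i ≠ s q i).card) :
    ∃ T : Finset (E d), T.card ≤ 2 ^ d - ∑ p, 2 ^ (d - (S p).card) ∧
      K ⊆ ⋃ t ∈ T, (fun x => t + x) '' interior K := by
  classical
  obtain ⟨hK, hc, hi⟩ := hB
  have hne : K.Nonempty := hi.mono interior_subset
  set D : Finset (Fin d → Bool) := univ.biUnion fun p => cube (S p) (s p) with hDdef
  have hDcard : D.card = ∑ p, 2 ^ (d - (S p).card) := by
    rw [hDdef, card_biUnion]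
    · exact sum_congr rfl fun p _ => card_cube _ _
    · intro p _ q _ hpq
      change Disjoint (cube (S p) (s p)) (cube (S q) (s q))
      rw [disjoint_left]
      intro σ h1 h2
      have h3 := far (hdist p q hpq) h1 h2
      rw [hammingDist_self] at h3
      omega
  have hDmem : ∀ σ, σ ∈ D ↔ ∃ p, σ ∈ cube (S p) (s p) := by
    intro σ
    rw [hDdef, mem_biUnion]
    exact ⟨fun ⟨p, _, h⟩ => ⟨p, h⟩, fun ⟨p, h⟩ => ⟨p, mem_univ _, h⟩⟩
  -- the gap
  obtain ⟨η, hη, hgap⟩ : ∃ η : ℝ, 0 < η ∧ ∀ p, ∀ x ∈ K, ∃ i ∈ S p, ∃ y ∈ K,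
      η ≤ sg (s p i) * (b.coord i y - b.coord i x) := by
    choose η h0 h1 using fun p => gap b hc hne (S p) (s p) (hD p)
    rcases isEmpty_or_nonempty ι with hι | hι
    · exact ⟨1, one_pos, fun p => (hι.false p).elim⟩
    refine ⟨(univ : Finset ι).inf' univ_nonempty η, ?_, fun p x hx => ?_⟩
    · rw [lt_inf'_iff]
      exact fun p _ => h0 p
    · obtain ⟨i, hi, y, hy, h2⟩ := h1 p x hx
      exact ⟨i, hi, y, hy, (inf'_le η (mem_univ p)).trans h2⟩
  -- the size
  obtain ⟨C, hC0, hC⟩ : ∃ C : ℝ, 0 ≤ C ∧ ∀ x ∈ K, ∀ y ∈ K, ∀ j, |b.coord j x - b.coord j y| ≤ C := by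
    have h1 : ∀ j, ∃ c, ∀ x ∈ K, ‖b.coord j x‖ ≤ c := fun j =>
      hc.exists_bound_of_continuousOn
        ((b.coord j).continuous_of_finiteDimensional.continuousOn)
    choose c h1 using h1
    refine ⟨∑ j, 2 * |c j|, sum_nonneg fun j _ => by positivity, fun x hx y hy j => ?_⟩
    have h2 := h1 j x hx
    have h3 := h1 j y hy
    rw [Real.norm_eq_abs] at h2 h3
    calc |b.coord j x - b.coord j y| ≤ |b.coord j x| + |b.coord j y| := abs_sub _ _
      _ ≤ 2 * |c j| := by linarith [le_abs_self (c j)]
      _ ≤ ∑ j, 2 * |c j| := single_le_sum (f := fun j => 2 * |c j|) (fun j _ => by positivity)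
          (mem_univ j)
  set δ : ℝ := η / (2 * (C + 1)) with hδ
  have hδ0 : 0 < δ := by positivity
  have hδC : δ * C ≤ η / 2 := by
    rw [hδ, div_mul_eq_mul_div, div_le_div_iff₀ (by positivity) two_pos]
    nlinarith
  -- the directions
  let wt : (Fin d → Bool) → Fin d → ℝ := fun τ i =>
    if ∃ p, i ∈ S p ∧ flip τ i ∈ cube (S p) (s p) then δ else 1
  have hwt : ∀ τ i, 0 < wt τ i := by
    intro τ i
    simp only [wt]
    split_ifs
    · exact hδ0
    · exact one_pos
  let v : (Fin d → Bool) → E d := fun τ => -∑ i, (sg (τ i) * wt τ i) • b i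
  have hv : ∀ (f : E d →L[ℝ] ℝ) τ, f (v τ) = -∑ i, wt τ i * (sg (τ i) * f (b i)) := by
    intro f τ
    simp only [v]
    rw [map_neg, map_sum]
    congr 1
    apply sum_congr rfl
    intro i _
    rw [map_smul, smul_eq_mul]
    ring
  set U : Finset (E d) := (univ \ D).image v with hU
  have hUcard : U.card ≤ 2 ^ d - ∑ p, 2 ^ (d - (S p).card) := by
    rw [← hDcard]
    refine card_image_le.trans (le_of_eq ?_)
    rw [card_sdiff_of_subset (subset_univ D), card_univ, Fintype.card_fun, Fintype.card_bool,
      Fintype.card_fin]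
  -- the choice of the direction for an extreme point
  have key : ∀ x ∈ Set.extremePoints ℝ K, ∃ τ ∈ univ \ D, ∀ f : E d →L[ℝ] ℝ,
      (∀ y ∈ K, f y ≤ f x) → (∃ i, f (b i) ≠ 0) → f (v τ) < 0 := by
    intro x hx
    have hxK : x ∈ K := hx.1
    let σ : Fin d → Bool := fun i => decide (∀ f : E d →L[ℝ] ℝ, (∀ y ∈ K, f y ≤ f x) → 0 ≤ f (b i))
    have hσ : ∀ f : E d →L[ℝ] ℝ, (∀ y ∈ K, f y ≤ f x) → ∀ i, sg (σ i) * f (b i) = |f (b i)| := by
      intro f hf i
      apply sg_abs
      by_cases hcase : ∀ f : E d →L[ℝ] ℝ, (∀ y ∈ K, f y ≤ f x) → 0 ≤ f (b i)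
      · have : σ i = true := decide_eq_true hcase
        rw [this]
        simp only [sg, if_true]
        linarith [hcase f hf]
      · have : σ i = false := decide_eq_false hcase
        rw [this]
        simp only [sg, Bool.false_eq_true, if_false]
        rcases hb i x hx with h | h
        · exact absurd h hcase
        · linarith [h f hf]
    by_cases hσD : σ ∈ D
    · obtain ⟨p, hp⟩ := (hDmem σ).1 hσD
      obtain ⟨i, hiS, y, hy, h1⟩ := hgap p x hxK
      rw [← mem_cube.1 hp i hiS] at h1
      have hfD : flip σ i ∉ D := by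
        intro h
        obtain ⟨q, hq⟩ := (hDmem _).1 h
        by_cases hpq : p = q
        · subst hpq
          have h2 := mem_cube.1 hq i hiS
          rw [flip_self, ← mem_cube.1 hp i hiS] at h2
          cases h3 : σ i <;> rw [h3] at h2 <;> simp at h2
        · have h2 := far (hdist p q hpq) hp hq
          have h3 := dist_flip_le σ i
          omega
      refine ⟨flip σ i, mem_sdiff.2 ⟨mem_univ _, hfD⟩, fun f hf hf0 => ?_⟩
      have hwi : wt (flip σ i) i = δ := by
        simp only [wt]
        rw [flip_flip, if_pos ⟨p, hiS, hp⟩]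
      have hwj : ∀ j, j ≠ i → wt (flip σ i) j = 1 := by
        intro j hj
        simp only [wt]
        rw [if_neg]
        rintro ⟨q, hjS, hq⟩
        by_cases hpq : p = q
        · subst hpq
          have h2 := mem_cube.1 hq i hiS
          rw [flip_ne _ (Ne.symm hj), flip_self, ← mem_cube.1 hp i hiS] at h2
          cases h3 : σ i <;> rw [h3] at h2 <;> simp at h2
        · have h2 := far (hdist p q hpq) hp hq
          have h3 := (hammingDist_triangle σ (flip σ i) (flip (flip σ i) j)).trans
            (Nat.add_le_add (dist_flip_le σ i) (dist_flip_le (flip σ i) j))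
          omega
      -- the values
      have h2 : f (v (flip σ i)) = δ * |f (b i)| - ∑ j ∈ univ.erase i, |f (b j)| := by
        rw [hv, ← add_sum_erase univ _ (mem_univ i), hwi, flip_self, sg_not, neg_mul, hσ f hf i]
        have h3 : ∑ j ∈ univ.erase i, wt (flip σ i) j * (sg (flip σ i j) * f (b j)) =
            ∑ j ∈ univ.erase i, |f (b j)| := by
          apply sum_congr rfl
          intro j hj
          rw [hwj j (ne_of_mem_erase hj), flip_ne σ (ne_of_mem_erase hj), hσ f hf j, one_mul]
        rw [h3]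
        ring
      have h3 : η * |f (b i)| ≤ C * ∑ j ∈ univ.erase i, |f (b j)| := by
        have h4 := hf y hy
        have h5 : f y - f x = ∑ j, (b.coord j y - b.coord j x) * f (b j) := by
          rw [← map_sub]
          conv_lhs => rw [← b.sum_repr (y - x)]
          rw [map_sum]
          apply sum_congr rfl
          intro j _
          rw [map_smul, smul_eq_mul]
          congr 1
          show b.repr (y - x) j = b.coord j y - b.coord j x
          rw [map_sub]
          rfl
        rw [← add_sum_erase univ _ (mem_univ i)] at h5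
        have h6 : (b.coord i y - b.coord i x) * f (b i) =
            (sg (σ i) * (b.coord i y - b.coord i x)) * |f (b i)| := by
          rw [← hσ f hf i]
          have := sg_sq (σ i)
          linear_combination (-((b.coord i y - b.coord i x) * f (b i))) * this
        have h7 : η * |f (b i)| ≤ (sg (σ i) * (b.coord i y - b.coord i x)) * |f (b i)| :=
          mul_le_mul_of_nonneg_right h1 (abs_nonneg _)
        have h8 : -∑ j ∈ univ.erase i, (b.coord j y - b.coord j x) * f (b j) ≤
            C * ∑ j ∈ univ.erase i, |f (b j)| := by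
          rw [mul_sum, ← sum_neg_distrib]
          apply sum_le_sum
          intro j _
          calc -((b.coord j y - b.coord j x) * f (b j)) ≤
              |(b.coord j y - b.coord j x) * f (b j)| := neg_le_abs _
            _ = |b.coord j y - b.coord j x| * |f (b j)| := abs_mul _ _
            _ ≤ C * |f (b j)| := mul_le_mul_of_nonneg_right (hC y hy x hxK j) (abs_nonneg _)
        linarith
      rw [h2]
      set A : ℝ := ∑ j ∈ univ.erase i, |f (b j)| with hA
      have hA0 : 0 ≤ A := sum_nonneg fun j _ => abs_nonneg _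
      rcases hA0.lt_or_eq with hA1 | hA1
      · -- `δ |f (b i)| ≤ δ C A / η ≤ A / 2`
        have h4 : η * (δ * |f (b i)|) ≤ η * (A / 2) := by
          calc η * (δ * |f (b i)|) = δ * (η * |f (b i)|) := by ring
            _ ≤ δ * (C * A) := mul_le_mul_of_nonneg_left h3 hδ0.le
            _ = (δ * C) * A := by ring
            _ ≤ (η / 2) * A := mul_le_mul_of_nonneg_right hδC hA0
            _ = η * (A / 2) := by ring
        have h5 := le_of_mul_le_mul_left h4 hη
        linarith
      · exfalso
        have hi0 : |f (b i)| = 0 := by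
          rw [← hA1, mul_zero] at h3
          have := abs_nonneg (f (b i))
          by_contra hcon
          have h4 : 0 < |f (b i)| := lt_of_le_of_ne this (Ne.symm hcon)
          have := mul_pos hη h4
          linarith
        obtain ⟨j, hj⟩ := hf0
        by_cases hji : j = i
        · subst hji
          exact hj (abs_eq_zero.1 hi0)
        · have h4 : |f (b j)| ≤ A := single_le_sum (f := fun j => |f (b j)|)
            (fun j _ => abs_nonneg _) (mem_erase.2 ⟨hji, mem_univ j⟩)
          have h5 : |f (b j)| = 0 := le_antisymm (by linarith) (abs_nonneg _)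
          exact hj (abs_eq_zero.1 h5)
    · refine ⟨σ, mem_sdiff.2 ⟨mem_univ _, hσD⟩, fun f hf hf0 => ?_⟩
      rw [hv]
      obtain ⟨i, hi0⟩ := hf0
      have h1 : 0 < ∑ i, wt σ i * (sg (σ i) * f (b i)) := by
        apply sum_pos'
        · intro j _
          rw [hσ f hf j]
          exact mul_nonneg (hwt σ j).le (abs_nonneg _)
        · refine ⟨i, mem_univ _, ?_⟩
          rw [hσ f hf i]
          exact mul_pos (hwt σ i) (abs_pos.2 hi0)
      linarith
  have hUne : U.Nonempty := by
    obtain ⟨x, hx⟩ := hc.extremePoints_nonempty hne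
    obtain ⟨τ, hτ, _⟩ := key x hx
    exact ⟨v τ, mem_image_of_mem v hτ⟩
  obtain ⟨T, hT, hcov⟩ := cover_of_illum hK hc U hUne (by
    intro x hx
    obtain ⟨w, hw, hdom⟩ := extreme_dom hK hc hi hx
    obtain ⟨τ, hτ, hf⟩ := key w hw
    refine ⟨v τ, mem_image_of_mem v hτ, hdom _ ?_⟩
    by_contra hcon
    push Not at hcon
    obtain ⟨f, hf1, hf2, hf3⟩ := sep_ray hK hi hw.1 _ hcon
    have h1 := hf f hf2 (by
      by_contra hall
      push Not at hall
      have hf0 : (f : E d →ₗ[ℝ] ℝ) = 0 := b.ext fun i => by simpa using hall i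
      obtain ⟨z, hz⟩ := hi
      have h2 := hf1 z hz
      have h3 : ∀ y, f y = 0 := fun y => by
        have := congrArg (fun g : E d →ₗ[ℝ] ℝ => g y) hf0
        simpa using this
      rw [h3, h3] at h2
      exact lt_irrefl _ h2)
    linarith)
  refine ⟨T, ?_, hcov⟩
  have h1 : (T.card : ℝ) ≤ (2 ^ d - ∑ p, 2 ^ (d - (S p).card) : ℕ) :=
    hT.trans (by exact_mod_cast hUcard)
  exact_mod_cast h1

end Pool.Agent.Helper272_UH
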