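import Pool.Agent.Helper272_UH.A
import Pool.Agent.R166.Spike.Eq

set_option autoImplicit false

/-!
# Hyperplanes through an interior point which cross no face
-/

open Finset
open scoped InnerProductSpace

namespace Pool.Agent.Helper272_UH

open Pool.Agent.PZ871 (E)
open Pool.Agent.Helper272_RF (Belt Body)
open Pool.Agent.TH438.Hull (Pol bipolar)
open Pool.Agent.R166.Spike (SeparatedBy sep_of_cover)

variable {d : ℕ}

/-- every face of `K` is contained in one of the closed half-spaces of the hyperplane through `o` with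
the normal vector `n` -/
def Uncrossed (K : Set (E d)) (o n : E d) : Prop :=
  ∀ u : E d, u ≠ 0 →
    (∀ x ∈ K, (∀ y ∈ K, ⟪u, y⟫_ℝ ≤ ⟪u, x⟫_ℝ) → 0 ≤ ⟪n, x - o⟫_ℝ) ∨
    (∀ x ∈ K, (∀ y ∈ K, ⟪u, y⟫_ℝ ≤ ⟪u, x⟫_ℝ) → ⟪n, x - o⟫_ℝ ≤ 0)

/-- a face of `K` meets all the half-lines from `o` in the directions `s_i e_i`, `i ∈ S` -/
def Full (K : Set (E d)) (o : E d) (e : Fin d → E d) (S : Finset (Fin d)) (s : Fin d → Bool) : Prop :=
  ∃ u : E d, u ≠ 0 ∧ ∀ i ∈ S, ∃ t : ℝ, 0 < t ∧ o + (sg (s i) * t) • e i ∈ K ∧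
    ∀ y ∈ K, ⟪u, y⟫_ℝ ≤ ⟪u, o + (sg (s i) * t) • e i⟫_ℝ

theorem pol_body {K : Set (E d)} (hc : IsCompact K) {o : E d} (ho : o ∈ interior K) :
    Body (Pol K o) :=
  ⟨Pool.Agent.TH438.Hull.Pol.convex K o, Pool.Agent.TH438.Hull.Pol.isCompact ho,
    ⟨0, Pool.Agent.TH438.Hull.Pol.zero_mem_interior hc⟩⟩

/-- a linear functional which is not zero takes positive values on the polar body -/
theorem exists_pos {K : Set (E d)} (hc : IsCompact K) {o : E d} (z : E d) (hz : z ≠ 0) :
    ∃ w ∈ Pol K o, 0 < ⟪w, z⟫_ℝ := by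
  have h0 := Pool.Agent.TH438.Hull.Pol.zero_mem_interior (o := o) hc
  have h1 : Filter.Tendsto (fun s : ℝ => s • z) (nhds 0) (nhds ((0:ℝ) • z)) :=
    (continuous_id.smul continuous_const).tendsto _
  rw [zero_smul] at h1
  have h2 := h1.eventually (mem_interior_iff_mem_nhds.1 h0)
  obtain ⟨ε, hε, h3⟩ := Metric.eventually_nhds_iff.1 h2
  refine ⟨(ε / 2) • z, h3 (by rw [dist_zero_right, Real.norm_of_nonneg (by positivity)]; linarith), ?_⟩
  rw [real_inner_smul_left]
  have : 0 < ⟪z, z⟫_ℝ := real_inner_self_pos.2 hz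
  positivity

/-- points of `K` from functionals on the polar body -/
theorem mem_of_le {K : Set (E d)} (hK : Convex ℝ K) (hc : IsCompact K) {o : E d} (ho : o ∈ interior K)
    {z : E d} (hz : ∀ w ∈ Pol K o, ⟪w, z⟫_ℝ ≤ 1) : o + z ∈ K := by
  rw [← bipolar hK hc.isClosed (interior_subset ho)]
  intro w hw
  rw [sub_zero, real_inner_comm]
  exact hz w hw

theorem belt_pol {K : Set (E d)} (hK : Convex ℝ K) (hc : IsCompact K) {o : E d} (ho : o ∈ interior K)
    {n : E d} (hn : Uncrossed K o n) : Belt (Pol K o) n := by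
  intro v hv
  have hvP : v ∈ Pol K o := hv.1
  -- functionals maximal at `v`
  have main : ∀ f : E d →L[ℝ] ℝ, (∀ w ∈ Pol K o, f w ≤ f v) → f ≠ 0 →
      ∃ (h : ℝ) (z : E d), 0 < h ∧ o + z ∈ K ∧ ⟪v, z⟫_ℝ = 1 ∧ ∀ w, f w = h * ⟪w, z⟫_ℝ := by
    intro f hf hf0
    set y : E d := (InnerProductSpace.toDual ℝ (E d)).symm f with hy
    have hfy : ∀ w, f w = ⟪w, y⟫_ℝ := fun w => by
      rw [real_inner_comm, hy]
      exact InnerProductSpace.toDual_symm_apply.symm
    have hy0 : y ≠ 0 := by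
      intro h
      apply hf0
      ext w
      rw [hfy, h, inner_zero_right]
      rfl
    obtain ⟨w, hw, hw0⟩ := exists_pos (o := o) hc y hy0
    have hh : 0 < f v := by
      rw [← hfy] at hw0
      exact hw0.trans_le (hf w hw)
    refine ⟨f v, (f v)⁻¹ • y, hh, mem_of_le hK hc ho fun w hw => ?_, ?_, fun w => ?_⟩
    · rw [real_inner_smul_right, ← hfy, inv_mul_le_iff₀ hh, mul_one]
      exact hf w hw
    · rw [real_inner_smul_right, ← hfy, inv_mul_cancel₀ hh.ne']
    · rw [real_inner_smul_right, ← hfy, mul_inv_cancel_left₀ hh.ne']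
  have hmax : ∀ z : E d, o + z ∈ K → ⟪v, z⟫_ℝ = 1 → ∀ y ∈ K, ⟪v, y⟫_ℝ ≤ ⟪v, o + z⟫_ℝ := by
    intro z _ hz y hy
    have h1 := hvP y hy
    rw [inner_sub_right] at h1
    rw [inner_add_right, hz]
    linarith
  by_cases hv0 : v = 0
  · left
    intro f hf
    by_cases hf0 : f = 0
    · rw [hf0]; exact le_rfl
    · obtain ⟨h, z, _, _, h1, _⟩ := main f hf hf0
      rw [hv0, inner_zero_left] at h1
      exact absurd h1 zero_ne_one
  · rcases hn v hv0 with h1 | h1
    · left
      intro f hf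
      by_cases hf0 : f = 0
      · rw [hf0]; exact le_rfl
      · obtain ⟨h, z, hh, hz, hz1, hfw⟩ := main f hf hf0
        have h2 := h1 (o + z) hz (hmax z hz hz1)
        rw [add_sub_cancel_left] at h2
        rw [hfw]
        exact mul_nonneg hh.le h2
    · right
      intro f hf
      by_cases hf0 : f = 0
      · rw [hf0]; exact le_rfl
      · obtain ⟨h, z, hh, hz, hz1, hfw⟩ := main f hf hf0
        have h2 := h1 (o + z) hz (hmax z hz hz1)
        rw [add_sub_cancel_left] at h2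
        rw [hfw]
        exact mul_nonpos_of_nonneg_of_nonpos hh.le h2

/-- a basis from linearly independent vectors -/
theorem exists_bas (hd : 1 ≤ d) (n : Fin d → E d) (hn : LinearIndependent ℝ n) :
    ∃ b : Module.Basis (Fin d) ℝ (E d), ∀ i, b i = n i := by
  have : Nonempty (Fin d) := ⟨⟨0, hd⟩⟩
  exact ⟨basisOfLinearIndependentOfCardEqFinrank hn (by simp), fun i => by simp⟩

/-- the coordinates -/
theorem coord_eq (b : Module.Basis (Fin d) ℝ (E d)) (e : Fin d → E d)
    (he : ∀ i j, ⟪b i, e j⟫_ℝ = if i = j then 1 else 0) (i : Fin d) (v : E d) :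
    b.coord i v = ⟪v, e i⟫_ℝ := by
  conv_rhs => rw [← b.sum_repr v]
  rw [sum_inner, Finset.sum_eq_single i]
  · rw [real_inner_smul_left, he, if_pos rfl, mul_one]
    rfl
  · intro j _ hj
    rw [real_inner_smul_left, he, if_neg hj, mul_zero]
  · intro h
    exact absurd (mem_univ i) h

theorem full_of_corner (hd : 1 ≤ d) {K : Set (E d)} (hK : Convex ℝ K) (hc : IsCompact K) {o : E d}
    (ho : o ∈ interior K) (b : Module.Basis (Fin d) ℝ (E d)) (e : Fin d → E d)
    (he : ∀ i j, ⟪b i, e j⟫_ℝ = if i = j then 1 else 0) {S : Finset (Fin d)} {σ : Fin d → Bool}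
    (h : Corner b (Pol K o) S σ) : Full K o e S σ := by
  obtain ⟨x, hx, hmax⟩ := h
  rcases S.eq_empty_or_nonempty with hS | ⟨i₀, hi₀⟩
  · refine ⟨b ⟨0, hd⟩, b.ne_zero _, fun i hi => ?_⟩
    rw [hS] at hi
    simp at hi
  have hm : ∀ i ∈ S, 0 < sg (σ i) * ⟪x, e i⟫_ℝ := by
    intro i hiS
    have he0 : sg (σ i) • e i ≠ 0 := by
      intro h0
      have h1 := he i i
      rw [if_pos rfl] at h1
      have h2 : e i = 0 := by
        have := congrArg (fun z => sg (σ i) • z) h0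
        simp only [smul_smul, sg_sq, one_smul, smul_zero] at this
        exact this
      rw [h2, inner_zero_right] at h1
      exact zero_ne_one h1
    obtain ⟨w, hw, hw0⟩ := exists_pos (o := o) hc _ he0
    have h1 := hmax i hiS w hw
    rw [coord_eq b e he, coord_eq b e he] at h1
    rw [real_inner_smul_right] at hw0
    linarith
  have hx0 : x ≠ 0 := by
    rintro rfl
    have := hm i₀ hi₀
    rw [inner_zero_left, mul_zero] at this
    exact lt_irrefl _ this
  refine ⟨x, hx0, fun i hiS => ⟨(sg (σ i) * ⟪x, e i⟫_ℝ)⁻¹, inv_pos.2 (hm i hiS), ?_, ?_⟩⟩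
  · apply mem_of_le hK hc ho
    intro w hw
    have h1 := hmax i hiS w hw
    rw [coord_eq b e he, coord_eq b e he] at h1
    rw [real_inner_smul_right, mul_comm (sg (σ i)), mul_assoc, inv_mul_le_iff₀ (hm i hiS), mul_one]
    exact h1
  · intro y hy
    have h1 := hx y hy
    rw [inner_sub_right] at h1
    have h2 : ⟪x, (sg (σ i) * (sg (σ i) * ⟪x, e i⟫_ℝ)⁻¹) • e i⟫_ℝ = 1 := by
      rw [real_inner_smul_right, mul_comm (sg (σ i)), mul_assoc, inv_mul_cancel₀ (hm i hiS).ne']
    rw [inner_add_right, h2]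
    linarith

theorem sep_code {K : Set (E d)} (hK : Convex ℝ K) (hc : IsCompact K) {o : E d}
    (ho : o ∈ interior K) (b : Module.Basis (Fin d) ℝ (E d)) (hb : ∀ i, Uncrossed K o (b i))
    {ι : Type} [Fintype ι] (S : ι → Finset (Fin d)) (s : ι → Fin d → Bool)
    (hD : ∀ p, ¬ Corner b (Pol K o) (S p) (s p))
    (hdist : ∀ p q, p ≠ q → 3 ≤ ((S p ∩ S q).filter fun i => s p i ≠ s q i).card) :
    SeparatedBy K o (2 ^ d - ∑ p, 2 ^ (d - (S p).card)) := by
  obtain ⟨T, hT, h1⟩ := upper b (pol_body hc ho) (fun i => belt_pol hK hc ho (hb i)) S s hD hdist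
  exact sep_of_cover hc ho T hT h1

/-- all corners: a cross-body -/
theorem cross_of_corners (hd : 1 ≤ d) {K : Set (E d)} (hK : Convex ℝ K) (hc : IsCompact K) {o : E d}
    (ho : o ∈ interior K) (b : Module.Basis (Fin d) ℝ (E d))
    (h : ∀ σ, Corner b (Pol K o) univ σ) :
    ∃ (v : Fin d → E d) (t : Fin d → ℝ), LinearIndependent ℝ v ∧ (∀ i, 0 < t i) ∧
      K = convexHull ℝ (Set.range (fun i => o + v i) ∪ Set.range (fun i => o - t i • v i)) := by
  classical
  obtain ⟨x1, hx1, hm1⟩ := h fun _ => true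
  obtain ⟨x0, hx0, hm0⟩ := h fun _ => false
  simp only [sg, if_true, one_mul, Bool.false_eq_true, if_false, mem_univ, forall_true_left] at hm1 hm0
  have hup : ∀ i, ∀ y ∈ Pol K o, b.coord i y ≤ b.coord i x1 := hm1
  have hlo : ∀ i, ∀ y ∈ Pol K o, b.coord i x0 ≤ b.coord i y := fun i y hy => by
    have := hm0 i y hy
    linarith
  refine Pool.Agent.H2R2.Frac.cross_of_polar d hd K hc hK o ho b.dualBasis
    (fun i => b.coord i x0) (fun i => b.coord i x1 - b.coord i x0) ?_ ?_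
  · intro i
    -- the coordinate is not constant on the polar body
    set z : E d := (InnerProductSpace.toDual ℝ (E d)).symm
      (LinearMap.toContinuousLinearMap (b.coord i)) with hz
    have hzc : ∀ w, b.coord i w = ⟪w, z⟫_ℝ := fun w => by
      rw [real_inner_comm, hz, InnerProductSpace.toDual_symm_apply]
      rfl
    have hz0 : z ≠ 0 := by
      intro h0
      have h1 := hzc (b i)
      rw [h0, inner_zero_right] at h1
      simp at h1
    obtain ⟨w, hw, hw0⟩ := exists_pos (o := o) hc z hz0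
    obtain ⟨w', hw', hw0'⟩ := exists_pos (o := o) hc (-z) (neg_ne_zero.2 hz0)
    have h1 := hup i w hw
    have h2 := hlo i w' hw'
    rw [hzc w] at h1
    rw [hzc w'] at h2
    rw [inner_neg_right] at hw0'
    linarith
  · ext v
    simp only [Set.mem_ofPred_eq, Module.Basis.coe_dualBasis]
    constructor
    · intro hv i
      exact ⟨hlo i v hv, by linarith [hup i v hv]⟩
    · intro hv y hy
      obtain ⟨x, hx, hmx⟩ := h fun i => decide (0 ≤ ⟪b i, y - o⟫_ℝ)
      have hdec : ∀ w : E d, ⟪w, y - o⟫_ℝ = ∑ i, b.coord i w * ⟪b i, y - o⟫_ℝ := by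
        intro w
        conv_lhs => rw [← b.sum_repr w]
        rw [sum_inner]
        apply sum_congr rfl
        intro i _
        rw [real_inner_smul_left]
        rfl
      refine le_trans ?_ (hx y hy)
      rw [hdec v, hdec x]
      apply sum_le_sum
      intro i _
      by_cases hs : 0 ≤ ⟪b i, y - o⟫_ℝ
      · have h1 := hmx i (mem_univ i) x1 hx1
        simp only [hs, decide_true, sg, if_true, one_mul] at h1
        apply mul_le_mul_of_nonneg_right _ hs
        have h2 := (hv i).2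
        linarith
      · have h1 := hmx i (mem_univ i) x0 hx0
        simp only [hs, decide_false, sg, Bool.false_eq_true, if_false] at h1
        apply mul_le_mul_of_nonpos_right _ (by linarith [not_le.1 hs])
        have h2 := (hv i).1
        linarith

/-- the lower bound -/
theorem lower (hd : 1 ≤ d) {K : Set (E d)} {o : E d} (e : Fin d → E d)
    (C : Finset (Fin d → Bool)) (hC : ∀ σ ∈ C, Full K o e univ σ) {N : ℕ} (hN : SeparatedBy K o N) :
    C.card ≤ N := by
  classical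
  obtain ⟨w, c, hw⟩ := hN
  have h1 : ∀ σ ∈ C, ∃ j : Fin N, ⟪w j, o⟫_ℝ < c j ∧ ∀ i, ∃ t : ℝ, 0 < t ∧
      c j < ⟪w j, o + (sg (σ i) * t) • e i⟫_ℝ := by
    intro σ hσ
    obtain ⟨u, hu, h⟩ := hC σ hσ
    obtain ⟨t₀, _, ht₀K, hmax₀⟩ := h ⟨0, hd⟩ (mem_univ _)
    obtain ⟨j, hj1, hj2⟩ := hw u _ hu ht₀K hmax₀
    refine ⟨j, hj1, fun i => ?_⟩
    obtain ⟨t, ht, htK, hmax⟩ := h i (mem_univ i)
    exact ⟨t, ht, hj2 _ htK (le_antisymm (hmax₀ _ htK) (hmax _ ht₀K))⟩
  rcases C.eq_empty_or_nonempty with hC0 | ⟨σ₀, hσ₀⟩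
  · simp [hC0]
  have : Nonempty (Fin N) := ⟨(h1 σ₀ hσ₀).choose⟩
  choose! φ hφ using h1
  have h2 : C.card ≤ (univ : Finset (Fin N)).card := by
    apply card_le_card_of_injOn φ (fun _ _ => mem_univ _)
    intro σ hσ τ hτ hφe
    by_contra hne
    obtain ⟨i, hi⟩ := Function.ne_iff.1 hne
    obtain ⟨hσ1, hσ2⟩ := hφ σ hσ
    obtain ⟨hτ1, hτ2⟩ := hφ τ hτ
    obtain ⟨t, ht, h3⟩ := hσ2 i
    obtain ⟨s, hs, h4⟩ := hτ2 i
    rw [← hφe] at h4 hτ1
    rw [inner_add_right, real_inner_smul_right] at h3 h4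
    have hsg : sg (τ i) = - sg (σ i) := by
      rw [← sg_not]
      congr 1
      cases h5 : σ i <;> cases h6 : τ i <;> simp_all
    rw [hsg] at h4
    have h5 : 0 < t * (sg (σ i) * ⟪w (φ σ), e i⟫_ℝ) := by linarith
    have h6 : 0 < s * (-(sg (σ i) * ⟪w (φ σ), e i⟫_ℝ)) := by linarith
    have h7 := (mul_pos_iff_of_pos_left ht).1 h5
    have h8 := (mul_pos_iff_of_pos_left hs).1 h6
    linarith
  simpa using h2

end Pool.Agent.Helper272_UH
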